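import Mathlib

set_option autoImplicit false

namespace Pool.Agent.Results.MP_d308b2_co.TwoOccUnbounded

/-- A permutation of some finite length `n`, i.e. a bijection of `Fin n` (positions to values). -/
abbrev Pm := Σ n : ℕ, Equiv.Perm (Fin n)

/-- `e` lists, in increasing order, the positions of an occurrence of `σ` in `τ`. -/
def IsOcc (σ τ : Pm) (e : Fin σ.1 → Fin τ.1) : Prop :=
  StrictMono e ∧ ∀ i j, σ.2 i < σ.2 j ↔ τ.2 (e i) < τ.2 (e j)

/-- Pattern containment: `σ` occurs in `τ`. -/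
def Cont (σ τ : Pm) : Prop := ∃ e : Fin σ.1 → Fin τ.1, IsOcc σ τ e

/-- The number of occurrences of `σ` in `τ`. -/
noncomputable def nu (σ τ : Pm) : ℕ := {e : Fin σ.1 → Fin τ.1 | IsOcc σ τ e}.ncard

open Classical in
/-- The Moebius function of the pattern containment poset: `mu σ σ = 1`,
`mu σ τ = - ∑ mu σ z` over `σ ≤ z < τ` for `σ < τ` (the `z ≤ τ` with `z ≠ τ` are those of smaller
length), and `mu σ τ = 0` if `σ ≰ τ`. -/
noncomputable def mu (σ : Pm) (τ : Pm) : ℤ :=
  if σ = τ then 1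
  else if Cont σ τ then
    - ∑ k : Fin τ.1, ∑ ρ : Equiv.Perm (Fin k),
        (if Cont σ ⟨k, ρ⟩ ∧ Cont ⟨k, ρ⟩ τ then mu σ ⟨k, ρ⟩ else 0)
  else 0
termination_by τ.1

/-! ### General facts on patterns -/

theorem strictMono_fin_id {n : ℕ} (e : Fin n → Fin n) (h : StrictMono e) : ∀ i, e i = i := by
  have hs : Function.Surjective e := Finite.surjective_of_injective h.injective
  have := Subsingleton.elim (StrictMono.orderIsoOfSurjective e h hs) (OrderIso.refl (Fin n))
  intro i
  have h2 := congrArg (fun f : Fin n ≃o Fin n => f i) this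
  simpa using h2

theorem eq_of_occ_of_size {σ τ : Pm} (h : Cont σ τ) (hn : σ.1 = τ.1) : σ = τ := by
  obtain ⟨n, s⟩ := σ
  obtain ⟨m, t⟩ := τ
  obtain ⟨e, he, hst⟩ := h
  simp only at hn e he hst
  subst hn
  have hid := strictMono_fin_id e he
  have hst' : ∀ i j, s i < s j ↔ t i < t j := by
    intro i j
    have := hst i j
    rwa [hid i, hid j] at this
  have hst2 : s = t := by
    have hm : StrictMono (fun i => t (s.symm i)) := by
      intro i j hij
      have := (hst' (s.symm i) (s.symm j)).1 (by simpa using hij)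
      exact this
    have h3 := strictMono_fin_id _ hm
    ext i
    have := h3 (s i)
    simp at this
    rw [this]
  rw [hst2]

theorem size_le_of_cont {σ τ : Pm} (h : Cont σ τ) : σ.1 ≤ τ.1 := by
  obtain ⟨e, he, -⟩ := h
  simpa using Fintype.card_le_of_injective e he.injective

theorem Cont.refl (σ : Pm) : Cont σ σ := ⟨id, strictMono_id, fun _ _ => Iff.rfl⟩

theorem Cont.trans {a b c : Pm} (h1 : Cont a b) (h2 : Cont b c) : Cont a c := by
  obtain ⟨e, he, hab⟩ := h1
  obtain ⟨f, hf, hbc⟩ := h2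
  exact ⟨f ∘ e, hf.comp he, fun i j => (hab i j).trans (hbc _ _)⟩

/-! ### The pattern of a finite set of positions -/

section Pat

variable (w : ℕ → ℕ) (hw : Function.Injective w)

include hw in
theorem exists_pat (S : Finset ℕ) : ∃ z : Pm, z.1 = S.card ∧ ∃ e : Fin z.1 → ℕ, StrictMono e ∧
    (∀ x, x ∈ S ↔ ∃ i, e i = x) ∧ ∀ i j, z.2 i < z.2 j ↔ w (e i) < w (e j) := by
  have hT : (S.image w).card = S.card := Finset.card_image_of_injective S hw
  let eS := S.orderIsoOfFin rfl
  let eT := (S.image w).orderIsoOfFin hT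
  let f : Fin S.card → Fin S.card := fun i =>
    eT.symm ⟨w (eS i), Finset.mem_image_of_mem w (eS i).2⟩
  have hf : Function.Injective f := by
    intro i j hij
    have h1 := eT.symm.injective hij
    have h2 : w (eS i) = w (eS j) := congrArg Subtype.val h1
    have h3 := hw h2
    exact eS.injective (Subtype.ext h3)
  refine ⟨⟨S.card, Equiv.ofBijective f (Finite.injective_iff_bijective.1 hf)⟩, rfl,
    fun i => (eS i : ℕ), ?_, ?_, ?_⟩
  · intro i j hij
    exact eS.strictMono hij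
  · intro x
    constructor
    · intro hx
      exact ⟨eS.symm ⟨x, hx⟩, by simp⟩
    · rintro ⟨i, rfl⟩
      exact (eS i).2
  · intro i j
    change f i < f j ↔ _
    simp only [f]
    rw [eT.symm.lt_iff_lt]
    rfl

/-- The pattern of the set of positions `S` in the word `w`. -/
noncomputable def pat (S : Finset ℕ) : Pm := (exists_pat w hw S).choose

theorem pat_size (S : Finset ℕ) : (pat w hw S).1 = S.card := (exists_pat w hw S).choose_spec.1

theorem pat_spec (S : Finset ℕ) : ∃ e : Fin (pat w hw S).1 → ℕ, StrictMono e ∧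
    (∀ x, x ∈ S ↔ ∃ i, e i = x) ∧ ∀ i j, (pat w hw S).2 i < (pat w hw S).2 j ↔
      w (e i) < w (e j) := (exists_pat w hw S).choose_spec.2

/-- Containment in `pat S` in terms of maps to `ℕ`. -/
theorem cont_pat_iff (z : Pm) (S : Finset ℕ) : Cont z (pat w hw S) ↔
    ∃ g : Fin z.1 → ℕ, StrictMono g ∧ (∀ i, g i ∈ S) ∧
      ∀ i j, z.2 i < z.2 j ↔ w (g i) < w (g j) := by
  obtain ⟨e, he, hS, hwe⟩ := pat_spec w hw S
  constructor
  · rintro ⟨f, hf, hzf⟩
    exact ⟨e ∘ f, he.comp hf, fun i => (hS _).2 ⟨f i, rfl⟩,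
      fun i j => (hzf i j).trans (hwe _ _)⟩
  · rintro ⟨g, hg, hgS, hzg⟩
    choose f hf using fun i => (hS (g i)).1 (hgS i)
    refine ⟨f, ?_, ?_⟩
    · intro i j hij
      have := hg hij
      rw [← hf i, ← hf j] at this
      exact he.lt_iff_lt.1 this
    · intro i j
      rw [hzg i j, hwe, hf, hf]

theorem eq_pat_of_map {z : Pm} {S : Finset ℕ} (g : Fin z.1 → ℕ) (hg : StrictMono g)
    (hS : ∀ i, g i ∈ S) (hc : z.1 = S.card) (hz : ∀ i j, z.2 i < z.2 j ↔ w (g i) < w (g j)) :
    z = pat w hw S :=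
  eq_of_occ_of_size ((cont_pat_iff w hw z S).2 ⟨g, hg, hS, hz⟩) (by rw [pat_size, hc])

/-- The sub-patterns of `pat S` are the `pat S'` with `S' ⊆ S`. -/
theorem exists_sub_of_cont {z : Pm} {S : Finset ℕ} (h : Cont z (pat w hw S)) :
    ∃ S', S' ⊆ S ∧ z = pat w hw S' := by
  obtain ⟨g, hg, hgS, hz⟩ := (cont_pat_iff w hw z S).1 h
  refine ⟨Finset.univ.image g, ?_, ?_⟩
  · intro x hx
    obtain ⟨i, -, rfl⟩ := Finset.mem_image.1 hx
    exact hgS i
  · refine eq_pat_of_map w hw g hg (fun i => Finset.mem_image_of_mem g (Finset.mem_univ i)) ?_ hz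
    rw [Finset.card_image_of_injective _ hg.injective]
    simp

theorem cont_pat_pat_iff (S S' : Finset ℕ) : Cont (pat w hw S) (pat w hw S') ↔
    ∃ g : ℕ → ℕ, (∀ x ∈ S, g x ∈ S') ∧ (∀ x ∈ S, ∀ y ∈ S, x < y → g x < g y) ∧
      ∀ x ∈ S, ∀ y ∈ S, (w x < w y ↔ w (g x) < w (g y)) := by
  obtain ⟨e, he, hS, hwe⟩ := pat_spec w hw S
  rw [cont_pat_iff]
  constructor
  · rintro ⟨f, hf, hfS, hwf⟩
    classical
    let g : ℕ → ℕ := fun x => if h : ∃ i, e i = x then f h.choose else 0
    have hg : ∀ i, g (e i) = f i := by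
      intro i
      have h : ∃ j, e j = e i := ⟨i, rfl⟩
      simp only [g, dif_pos h]
      congr 1
      exact he.injective h.choose_spec
    refine ⟨g, ?_, ?_, ?_⟩
    · intro x hx
      obtain ⟨i, rfl⟩ := (hS x).1 hx
      rw [hg]
      exact hfS i
    · intro x hx y hy hxy
      obtain ⟨i, rfl⟩ := (hS x).1 hx
      obtain ⟨j, rfl⟩ := (hS y).1 hy
      rw [hg, hg]
      exact hf (he.lt_iff_lt.1 hxy)
    · intro x hx y hy
      obtain ⟨i, rfl⟩ := (hS x).1 hx
      obtain ⟨j, rfl⟩ := (hS y).1 hy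
      rw [hg, hg, ← hwf, hwe]
  · rintro ⟨g, hgS, hg, hwg⟩
    refine ⟨g ∘ e, ?_, ?_, ?_⟩
    · intro i j hij
      exact hg _ ((hS _).2 ⟨i, rfl⟩) _ ((hS _).2 ⟨j, rfl⟩) (he hij)
    · intro i
      exact hgS _ ((hS _).2 ⟨i, rfl⟩)
    · intro i j
      rw [hwe]
      exact hwg _ ((hS _).2 ⟨i, rfl⟩) _ ((hS _).2 ⟨j, rfl⟩)

/-- An occurrence between patterns of sets of positions is given by a map of positions. -/
theorem occ_map (S S' : Finset ℕ) (a : Fin (pat w hw S).1 → ℕ) (ha : StrictMono a)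
    (haS : ∀ x, x ∈ S ↔ ∃ i, a i = x)
    (haw : ∀ i j, (pat w hw S).2 i < (pat w hw S).2 j ↔ w (a i) < w (a j))
    (b : Fin (pat w hw S').1 → ℕ) (hb : StrictMono b)
    (hbS : ∀ x, x ∈ S' ↔ ∃ i, b i = x)
    (hbw : ∀ i j, (pat w hw S').2 i < (pat w hw S').2 j ↔ w (b i) < w (b j))
    (e : Fin (pat w hw S).1 → Fin (pat w hw S').1) (he : IsOcc (pat w hw S) (pat w hw S') e) :
    ∃ g : ℕ → ℕ, (∀ x ∈ S, g x ∈ S') ∧ (∀ x ∈ S, ∀ y ∈ S, x < y → g x < g y) ∧
      (∀ x ∈ S, ∀ y ∈ S, (w x < w y ↔ w (g x) < w (g y))) ∧ ∀ i, g (a i) = b (e i) := by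
  classical
  let g : ℕ → ℕ := fun x => if h : ∃ i, a i = x then b (e h.choose) else 0
  have hg : ∀ i, g (a i) = b (e i) := by
    intro i
    have h : ∃ j, a j = a i := ⟨i, rfl⟩
    simp only [g, dif_pos h]
    congr 2
    exact ha.injective h.choose_spec
  refine ⟨g, ?_, ?_, ?_, hg⟩
  · intro x hx
    obtain ⟨i, rfl⟩ := (haS x).1 hx
    rw [hg]
    exact (hbS _).2 ⟨_, rfl⟩
  · intro x hx y hy hxy
    obtain ⟨i, rfl⟩ := (haS x).1 hx
    obtain ⟨j, rfl⟩ := (haS y).1 hy
    rw [hg, hg]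
    exact hb (he.1 (ha.lt_iff_lt.1 hxy))
  · intro x hx y hy
    obtain ⟨i, rfl⟩ := (haS x).1 hx
    obtain ⟨j, rfl⟩ := (haS y).1 hy
    rw [hg, hg, ← hbw, ← haw]
    exact he.2 i j

theorem map_occ (S S' : Finset ℕ) (a : Fin (pat w hw S).1 → ℕ) (ha : StrictMono a)
    (haS : ∀ x, x ∈ S ↔ ∃ i, a i = x)
    (haw : ∀ i j, (pat w hw S).2 i < (pat w hw S).2 j ↔ w (a i) < w (a j))
    (b : Fin (pat w hw S').1 → ℕ) (hb : StrictMono b)
    (hbS : ∀ x, x ∈ S' ↔ ∃ i, b i = x)
    (hbw : ∀ i j, (pat w hw S').2 i < (pat w hw S').2 j ↔ w (b i) < w (b j))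
    (g : ℕ → ℕ) (h1 : ∀ x ∈ S, g x ∈ S') (h2 : ∀ x ∈ S, ∀ y ∈ S, x < y → g x < g y)
    (h3 : ∀ x ∈ S, ∀ y ∈ S, (w x < w y ↔ w (g x) < w (g y))) :
    ∃ e, IsOcc (pat w hw S) (pat w hw S') e ∧ ∀ i, g (a i) = b (e i) := by
  have hm : ∀ i, a i ∈ S := fun i => (haS _).2 ⟨i, rfl⟩
  choose e he using fun i => (hbS (g (a i))).1 (h1 _ (hm i))
  refine ⟨e, ⟨?_, ?_⟩, fun i => (he i).symm⟩
  · intro i j hij
    have := h2 _ (hm i) _ (hm j) (ha hij)
    rw [← he i, ← he j] at this
    exact hb.lt_iff_lt.1 this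
  · intro i j
    rw [haw, hbw, he, he]
    exact h3 _ (hm i) _ (hm j)

theorem cont_of_subset {S S' : Finset ℕ} (h : S ⊆ S') : Cont (pat w hw S) (pat w hw S') :=
  (cont_pat_pat_iff w hw S S').2 ⟨id, fun _ hx => h hx, fun _ _ _ _ h => h, fun _ _ _ _ => Iff.rfl⟩

theorem pat_eq_of_map {S S' : Finset ℕ} (hc : S.card = S'.card) (g : ℕ → ℕ)
    (h1 : ∀ x ∈ S, g x ∈ S') (h2 : ∀ x ∈ S, ∀ y ∈ S, x < y → g x < g y)
    (h3 : ∀ x ∈ S, ∀ y ∈ S, (w x < w y ↔ w (g x) < w (g y))) : pat w hw S = pat w hw S' :=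
  eq_of_occ_of_size ((cont_pat_pat_iff w hw S S').2 ⟨g, h1, h2, h3⟩) (by
    rw [pat_size, pat_size, hc])

end Pat

/-! ### The recursion as a sum over a finite set -/

open Classical in
/-- The permutations `z` with `σ ≤ z ≤ τ` and length smaller than that of `τ`. -/
noncomputable def lower (σ τ : Pm) : Finset Pm :=
  ((Finset.range τ.1).sigma (fun k => (Finset.univ : Finset (Equiv.Perm (Fin k))))).filter
    (fun z => Cont σ z ∧ Cont z τ)

theorem mem_lower (σ τ z : Pm) : z ∈ lower σ τ ↔ z.1 < τ.1 ∧ Cont σ z ∧ Cont z τ := by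
  simp [lower]

theorem mu_self (σ : Pm) : mu σ σ = 1 := by
  rw [mu]; simp

theorem mu_of_lt {σ τ : Pm} (hne : σ ≠ τ) (h : Cont σ τ) :
    mu σ τ = - ∑ z ∈ lower σ τ, mu σ z := by
  classical
  rw [mu, if_neg hne, if_pos h]
  congr 1
  rw [lower, Finset.sum_filter, Finset.sum_sigma]
  rw [Finset.sum_range (fun k => ∑ ρ : Equiv.Perm (Fin k),
    if Cont σ ⟨k, ρ⟩ ∧ Cont ⟨k, ρ⟩ τ then mu σ ⟨k, ρ⟩ else 0)]

theorem sum_ssubsets_neg_one (T : Finset ℕ) (hT : T.Nonempty) :
    ∑ T' ∈ T.ssubsets, (-1 : ℤ) ^ T'.card = - (-1) ^ T.card := by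
  have h := Finset.sum_powerset_neg_one_pow_card_of_nonempty hT
  rw [Finset.ssubsets, Finset.sum_erase_eq_sub (Finset.mem_powerset_self T), h]
  ring

/-! ### Two occurrences covering everything: the general computation -/

section Two

variable (w : ℕ → ℕ) (hw : Function.Injective w)

theorem mu_half (E F : Finset ℕ) (hd : Disjoint E F)
    (hA : ∀ S, S ⊆ E ∪ F → Cont (pat w hw E) (pat w hw S) → E ⊆ S ∨ F ⊆ S)
    (hE : ∀ T, T ⊆ F → T ≠ F → ∀ T', T' ⊆ F → T' ≠ F →
      pat w hw (E ∪ T) = pat w hw (E ∪ T') → T = T') :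
    ∀ T, T ⊆ F → T ≠ F → mu (pat w hw E) (pat w hw (E ∪ T)) = (-1) ^ T.card := by
  intro T
  induction T using Finset.strongInduction with
  | H T ih =>
    intro hTF hTne
    rcases T.eq_empty_or_nonempty with rfl | hT
    · simp [mu_self]
    · have hcard : ∀ T', T' ⊆ F → (E ∪ T').card = E.card + T'.card := fun T' h =>
        Finset.card_union_of_disjoint (Finset.disjoint_of_subset_right h hd)
      have hne : pat w hw E ≠ pat w hw (E ∪ T) := by
        intro h
        have h1 := congrArg (fun z : Pm => z.1) h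
        simp only [pat_size, hcard T hTF] at h1
        have := hT.card_pos
        omega
      rw [mu_of_lt hne (cont_of_subset w hw Finset.subset_union_left)]
      have hlow : lower (pat w hw E) (pat w hw (E ∪ T)) =
          T.ssubsets.image (fun T' => pat w hw (E ∪ T')) := by
        ext z
        rw [mem_lower, Finset.mem_image]
        constructor
        · rintro ⟨hz1, hz2, hz3⟩
          obtain ⟨S', hS', rfl⟩ := exists_sub_of_cont w hw hz3
          have hS'' : S' ⊆ E ∪ F := hS'.trans (Finset.union_subset_union_right hTF)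
          rcases hA S' hS'' hz2 with h | h
          · refine ⟨S' \ E, ?_, ?_⟩
            · rw [Finset.mem_ssubsets, Finset.ssubset_iff_subset_ne]
              refine ⟨?_, ?_⟩
              · intro x hx
                rw [Finset.mem_sdiff] at hx
                have := hS' hx.1
                rw [Finset.mem_union] at this
                tauto
              · intro heq
                rw [pat_size, pat_size, ← heq, Finset.union_sdiff_of_subset h] at hz1
                exact lt_irrefl _ hz1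
            · rw [Finset.union_sdiff_of_subset h]
          · exfalso
            apply hTne
            apply Finset.Subset.antisymm hTF
            intro x hx
            have h1 := hS' (h hx)
            rw [Finset.mem_union] at h1
            rcases h1 with h1 | h1
            · exact absurd hx (Finset.disjoint_left.1 hd h1)
            · exact h1
        · rintro ⟨T', hT', rfl⟩
          rw [Finset.mem_ssubsets] at hT'
          refine ⟨?_, cont_of_subset w hw Finset.subset_union_left,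
            cont_of_subset w hw (Finset.union_subset_union_right hT'.1)⟩
          rw [pat_size, pat_size, hcard T hTF, hcard T' (hT'.1.trans hTF)]
          have := Finset.card_lt_card hT'
          omega
      rw [hlow, Finset.sum_image]
      · rw [Finset.sum_congr rfl (g := fun T' => (-1 : ℤ) ^ T'.card)]
        · rw [sum_ssubsets_neg_one T hT]
          ring
        · intro T' hT'
          rw [Finset.mem_ssubsets] at hT'
          refine ih T' hT' (hT'.1.trans hTF) ?_
          rintro rfl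
          exact hT'.2 hTF
      · intro T1 h1 T2 h2 h12
        simp only [Finset.mem_coe, Finset.mem_ssubsets] at h1 h2
        refine hE T1 (h1.1.trans hTF) ?_ T2 (h2.1.trans hTF) ?_ h12
        · rintro rfl
          exact h1.2 hTF
        · rintro rfl
          exact h2.2 hTF

theorem mu_two (E F : Finset ℕ) (hd : Disjoint E F) (hEn : E.Nonempty) (hFn : F.Nonempty)
    (hev : Even E.card) (hcard : E.card = F.card)
    (hEF : pat w hw E = pat w hw F)
    (hA : ∀ S, S ⊆ E ∪ F → Cont (pat w hw E) (pat w hw S) → E ⊆ S ∨ F ⊆ S)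
    (hE : ∀ T, T ⊆ F → T ≠ F → ∀ T', T' ⊆ F → T' ≠ F →
      pat w hw (E ∪ T) = pat w hw (E ∪ T') → T = T')
    (hF : ∀ T, T ⊆ E → T ≠ E → ∀ T', T' ⊆ E → T' ≠ E →
      pat w hw (F ∪ T) = pat w hw (F ∪ T') → T = T')
    (C : Finset ℕ) (hCF : ∀ q ∈ C, {q} ⊆ F ∧ {q} ≠ F)
    (hC : ∀ T, T ⊆ F → T ≠ F → ((∃ T', T' ⊆ E ∧ T' ≠ E ∧ pat w hw (E ∪ T) = pat w hw (F ∪ T')) ↔
      (T = ∅ ∨ ∃ q ∈ C, T = {q}))) :
    mu (pat w hw E) (pat w hw (E ∪ F)) = 3 - (C.card : ℤ) := by
  classical
  have hmuE := mu_half w hw E F hd hA hE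
  have hmuF := mu_half w hw F E hd.symm (by
    intro S hS h
    rw [← hEF] at h
    exact (hA S (by rwa [Finset.union_comm]) h).symm) hF
  rw [← hEF] at hmuF
  have hcardE : ∀ T', T' ⊆ F → (E ∪ T').card = E.card + T'.card := fun T' h =>
    Finset.card_union_of_disjoint (Finset.disjoint_of_subset_right h hd)
  have hcardF : ∀ T', T' ⊆ E → (F ∪ T').card = F.card + T'.card := fun T' h =>
    Finset.card_union_of_disjoint (Finset.disjoint_of_subset_right h hd.symm)
  have hne : pat w hw E ≠ pat w hw (E ∪ F) := by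
    intro h
    have h1 := congrArg (fun z : Pm => z.1) h
    simp only [pat_size, hcardE F (Finset.Subset.refl F)] at h1
    have := hFn.card_pos
    omega
  rw [mu_of_lt hne (cont_of_subset w hw Finset.subset_union_left)]
  set A : Finset Pm := F.ssubsets.image (fun T' => pat w hw (E ∪ T')) with hAdef
  set B : Finset Pm := E.ssubsets.image (fun T' => pat w hw (F ∪ T')) with hBdef
  have hlow : lower (pat w hw E) (pat w hw (E ∪ F)) = A ∪ B := by
    ext z
    rw [mem_lower, Finset.mem_union, hAdef, hBdef, Finset.mem_image, Finset.mem_image]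
    constructor
    · rintro ⟨hz1, hz2, hz3⟩
      obtain ⟨S', hS', rfl⟩ := exists_sub_of_cont w hw hz3
      rcases hA S' hS' hz2 with h | h
      · left
        refine ⟨S' \ E, ?_, ?_⟩
        · rw [Finset.mem_ssubsets, Finset.ssubset_iff_subset_ne]
          refine ⟨?_, ?_⟩
          · intro x hx
            rw [Finset.mem_sdiff] at hx
            have := hS' hx.1
            rw [Finset.mem_union] at this
            tauto
          · intro heq
            rw [pat_size, pat_size, ← heq, Finset.union_sdiff_of_subset h] at hz1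
            exact lt_irrefl _ hz1
        · rw [Finset.union_sdiff_of_subset h]
      · right
        refine ⟨S' \ F, ?_, ?_⟩
        · rw [Finset.mem_ssubsets, Finset.ssubset_iff_subset_ne]
          refine ⟨?_, ?_⟩
          · intro x hx
            rw [Finset.mem_sdiff] at hx
            have := hS' hx.1
            rw [Finset.mem_union] at this
            tauto
          · intro heq
            rw [pat_size, pat_size, ← heq, Finset.union_comm, Finset.union_sdiff_of_subset h] at hz1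
            exact lt_irrefl _ hz1
        · rw [Finset.union_sdiff_of_subset h]
    · rintro (⟨T', hT', rfl⟩ | ⟨T', hT', rfl⟩)
      · rw [Finset.mem_ssubsets] at hT'
        refine ⟨?_, cont_of_subset w hw Finset.subset_union_left,
          cont_of_subset w hw (Finset.union_subset_union_right hT'.1)⟩
        rw [pat_size, pat_size, hcardE F (Finset.Subset.refl F), hcardE T' hT'.1]
        have := Finset.card_lt_card hT'
        omega
      · rw [Finset.mem_ssubsets] at hT'
        refine ⟨?_, ?_, ?_⟩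
        · rw [pat_size, pat_size, hcardE F (Finset.Subset.refl F), hcardF T' hT'.1]
          have := Finset.card_lt_card hT'
          omega
        · rw [hEF]
          exact cont_of_subset w hw Finset.subset_union_left
        · apply cont_of_subset
          rw [Finset.union_comm E F]
          exact Finset.union_subset_union_right hT'.1
  have hinjE : Set.InjOn (fun T' => pat w hw (E ∪ T')) (F.ssubsets : Set (Finset ℕ)) := by
    intro T1 h1 T2 h2 h12
    simp only [Finset.mem_coe, Finset.mem_ssubsets] at h1 h2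
    exact hE T1 h1.1 (fun h => h1.2 (h ▸ Finset.Subset.refl _)) T2 h2.1
      (fun h => h2.2 (h ▸ Finset.Subset.refl _)) h12
  have hinjF : Set.InjOn (fun T' => pat w hw (F ∪ T')) (E.ssubsets : Set (Finset ℕ)) := by
    intro T1 h1 T2 h2 h12
    simp only [Finset.mem_coe, Finset.mem_ssubsets] at h1 h2
    exact hF T1 h1.1 (fun h => h1.2 (h ▸ Finset.Subset.refl _)) T2 h2.1
      (fun h => h2.2 (h ▸ Finset.Subset.refl _)) h12
  have hsumA : ∑ z ∈ A, mu (pat w hw E) z = -1 := by
    rw [hAdef, Finset.sum_image hinjE,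
      Finset.sum_congr rfl (g := fun T' : Finset ℕ => (-1 : ℤ) ^ T'.card),
      sum_ssubsets_neg_one F hFn, ← hcard, hev.neg_one_pow]
    intro T' hT'
    rw [Finset.mem_ssubsets] at hT'
    exact hmuE T' hT'.1 (fun h => hT'.2 (h ▸ Finset.Subset.refl _))
  have hsumB : ∑ z ∈ B, mu (pat w hw E) z = -1 := by
    rw [hBdef, Finset.sum_image hinjF,
      Finset.sum_congr rfl (g := fun T' : Finset ℕ => (-1 : ℤ) ^ T'.card),
      sum_ssubsets_neg_one E hEn, hev.neg_one_pow]
    intro T' hT'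
    rw [Finset.mem_ssubsets] at hT'
    exact hmuF T' hT'.1 (fun h => hT'.2 (h ▸ Finset.Subset.refl _))
  have hAB : A ∩ B = (insert ∅ (C.image (fun q => ({q} : Finset ℕ)))).image
      (fun T' => pat w hw (E ∪ T')) := by
    ext z
    rw [Finset.mem_inter, hAdef, hBdef, Finset.mem_image, Finset.mem_image, Finset.mem_image]
    constructor
    · rintro ⟨⟨T, hT, rfl⟩, ⟨T', hT', h⟩⟩
      rw [Finset.mem_ssubsets] at hT hT'
      refine ⟨T, ?_, rfl⟩
      have := (hC T hT.1 (fun h => hT.2 (h ▸ Finset.Subset.refl _))).1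
        ⟨T', hT'.1, (fun h => hT'.2 (h ▸ Finset.Subset.refl _)), h.symm⟩
      rw [Finset.mem_insert, Finset.mem_image]
      rcases this with h | ⟨q, hq, h⟩
      · exact Or.inl h
      · exact Or.inr ⟨q, hq, h.symm⟩
    · rintro ⟨T, hT, rfl⟩
      rw [Finset.mem_insert, Finset.mem_image] at hT
      have hTF : T ⊆ F ∧ T ≠ F := by
        rcases hT with rfl | ⟨q, hq, rfl⟩
        · exact ⟨Finset.empty_subset _, fun h => by rw [← h] at hFn; simp at hFn⟩
        · exact hCF q hq
      have hT2 : T = ∅ ∨ ∃ q ∈ C, T = {q} := by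
        rcases hT with h | ⟨q, hq, h⟩
        · exact Or.inl h
        · exact Or.inr ⟨q, hq, h.symm⟩
      obtain ⟨T', h1, h2, h3⟩ := (hC T hTF.1 hTF.2).2 hT2
      refine ⟨⟨T, ?_, rfl⟩, ⟨T', ?_, h3.symm⟩⟩
      · rw [Finset.mem_ssubsets]; exact Finset.ssubset_iff_subset_ne.2 hTF
      · rw [Finset.mem_ssubsets]; exact Finset.ssubset_iff_subset_ne.2 ⟨h1, h2⟩
  have hmemss : ∀ T ∈ (insert ∅ (C.image (fun q => ({q} : Finset ℕ)))), T ∈ F.ssubsets := by
    intro T hT
    rw [Finset.mem_insert, Finset.mem_image] at hT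
    rw [Finset.mem_ssubsets, Finset.ssubset_iff_subset_ne]
    rcases hT with rfl | ⟨q, hq, rfl⟩
    · exact ⟨Finset.empty_subset _, fun h => by rw [← h] at hFn; simp at hFn⟩
    · exact hCF q hq
  have hsumAB : ∑ z ∈ A ∩ B, mu (pat w hw E) z = 1 - (C.card : ℤ) := by
    rw [hAB, Finset.sum_image (hinjE.mono (fun T hT => hmemss T hT)),
      Finset.sum_congr rfl (g := fun T' : Finset ℕ => (-1 : ℤ) ^ T'.card), Finset.sum_insert,
      Finset.sum_image]
    · simp
      ring
    · intro a _ b _ h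
      simpa using h
    · intro h
      rw [Finset.mem_image] at h
      obtain ⟨q, -, h⟩ := h
      exact absurd h (Finset.singleton_ne_empty q)
    · intro T' hT'
      have hT'' := hmemss T' hT'
      rw [Finset.mem_ssubsets] at hT''
      exact hmuE T' hT''.1 (fun h => hT''.2 (h ▸ Finset.Subset.refl _))
  have := Finset.sum_union_inter (s₁ := A) (s₂ := B) (f := fun z => mu (pat w hw E) z)
  rw [hlow]
  rw [hsumA, hsumB, hsumAB] at this
  linarith

end Two

/-! ### The family -/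

section Family

/-- Values of the word: position `x` carries value `wd N x`. -/
def wd (N x : ℕ) : ℕ :=
  if 4 * N + 12 ≤ x then x
  else if 12 ≤ x then
    (if (x - 12) % 4 = 0 then 1 + (x - 12) / 4
     else if (x - 12) % 4 = 1 then N + 3 + (x - 12) / 4
     else if (x - 12) % 4 = 2 then 2 * N + 4 + (N - (x - 12) / 4)
     else 3 * N + 6 + (N - (x - 12) / 4))
  else if x = 0 then 3 * N + 5
  else if x = 1 then 4 * N + 10
  else if x = 2 then N + 1
  else if x = 3 then 4 * N + 7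
  else if x = 4 then 2 * N + 4
  else if x = 5 then 4 * N + 8
  else if x = 6 then 0
  else if x = 7 then 2 * N + 3
  else if x = 8 then 3 * N + 6
  else if x = 9 then 4 * N + 11
  else if x = 10 then N + 2
  else 4 * N + 9

theorem wd_cases (N x : ℕ) :
    (x = 0 ∧ wd N x = 3 * N + 5) ∨ (x = 1 ∧ wd N x = 4 * N + 10) ∨ (x = 2 ∧ wd N x = N + 1) ∨
    (x = 3 ∧ wd N x = 4 * N + 7) ∨ (x = 4 ∧ wd N x = 2 * N + 4) ∨ (x = 5 ∧ wd N x = 4 * N + 8) ∨
    (x = 6 ∧ wd N x = 0) ∨ (x = 7 ∧ wd N x = 2 * N + 3) ∨ (x = 8 ∧ wd N x = 3 * N + 6) ∨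
    (x = 9 ∧ wd N x = 4 * N + 11) ∨ (x = 10 ∧ wd N x = N + 2) ∨ (x = 11 ∧ wd N x = 4 * N + 9) ∨
    (∃ i, i < N ∧ x = 12 + 4 * i ∧ wd N x = 1 + i) ∨
    (∃ i, i < N ∧ x = 13 + 4 * i ∧ wd N x = N + 3 + i) ∨
    (∃ i, i < N ∧ x = 14 + 4 * i ∧ wd N x = 2 * N + 4 + (N - i)) ∨
    (∃ i, i < N ∧ x = 15 + 4 * i ∧ wd N x = 3 * N + 6 + (N - i)) ∨
    (4 * N + 12 ≤ x ∧ wd N x = x) := by
  by_cases h1 : 4 * N + 12 ≤ x
  · iterate 16 right
    exact ⟨h1, by simp only [wd, if_pos h1]⟩
  by_cases h2 : 12 ≤ x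
  · obtain ⟨i, c, hc, hx⟩ : ∃ i c, c < 4 ∧ x = 12 + 4 * i + c :=
      ⟨(x - 12) / 4, (x - 12) % 4, Nat.mod_lt _ (by norm_num), by omega⟩
    have e1 : (x - 12) % 4 = c := by omega
    have e2 : (x - 12) / 4 = i := by omega
    have hi : i < N := by omega
    simp only [wd, if_neg h1, if_pos h2, e1, e2]
    interval_cases c
    · iterate 12 right
      left
      exact ⟨i, hi, by omega, by simp⟩
    · iterate 13 right
      left
      exact ⟨i, hi, by omega, by simp⟩
    · iterate 14 right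
      left
      exact ⟨i, hi, by omega, by simp⟩
    · iterate 15 right
      left
      exact ⟨i, hi, by omega, by simp⟩
  · have h3 : x < 12 := by omega
    interval_cases x <;> simp [wd]

theorem wd_injective (N : ℕ) : Function.Injective (wd N) := by
  intro x y h
  rcases wd_cases N x with hx | hx | hx | hx | hx | hx | hx | hx | hx | hx | hx | hx |
    ⟨i, hi, hx⟩ | ⟨i, hi, hx⟩ | ⟨i, hi, hx⟩ | ⟨i, hi, hx⟩ | hx <;>
  rcases wd_cases N y with hy | hy | hy | hy | hy | hy | hy | hy | hy | hy | hy | hy |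
    ⟨j, hj, hy⟩ | ⟨j, hj, hy⟩ | ⟨j, hj, hy⟩ | ⟨j, hj, hy⟩ | hy <;>
  omega

theorem wd0 (N : ℕ) : wd N 0 = 3 * N + 5 := by simp [wd]
theorem wd1 (N : ℕ) : wd N 1 = 4 * N + 10 := by simp [wd]
theorem wd2 (N : ℕ) : wd N 2 = N + 1 := by simp [wd]
theorem wd3 (N : ℕ) : wd N 3 = 4 * N + 7 := by simp [wd]
theorem wd4 (N : ℕ) : wd N 4 = 2 * N + 4 := by simp [wd]
theorem wd5 (N : ℕ) : wd N 5 = 4 * N + 8 := by simp [wd]
theorem wd6 (N : ℕ) : wd N 6 = 0 := by simp [wd]
theorem wd7 (N : ℕ) : wd N 7 = 2 * N + 3 := by simp [wd]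
theorem wd8 (N : ℕ) : wd N 8 = 3 * N + 6 := by simp [wd]
theorem wd9 (N : ℕ) : wd N 9 = 4 * N + 11 := by simp [wd]
theorem wd10 (N : ℕ) : wd N 10 = N + 2 := by simp [wd]
theorem wd11 (N : ℕ) : wd N 11 = 4 * N + 9 := by simp [wd]

theorem wd12 (N i : ℕ) (hi : i < N) : wd N (12 + 4 * i) = 1 + i := by
  rcases wd_cases N (12 + 4 * i) with hx | hx | hx | hx | hx | hx | hx | hx | hx | hx | hx | hx |
    ⟨j, hj, hx⟩ | ⟨j, hj, hx⟩ | ⟨j, hj, hx⟩ | ⟨j, hj, hx⟩ | hx <;> omega
theorem wd13 (N i : ℕ) (hi : i < N) : wd N (13 + 4 * i) = N + 3 + i := by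
  rcases wd_cases N (13 + 4 * i) with hx | hx | hx | hx | hx | hx | hx | hx | hx | hx | hx | hx |
    ⟨j, hj, hx⟩ | ⟨j, hj, hx⟩ | ⟨j, hj, hx⟩ | ⟨j, hj, hx⟩ | hx <;> omega
theorem wd14 (N i : ℕ) (hi : i < N) : wd N (14 + 4 * i) = 2 * N + 4 + (N - i) := by
  rcases wd_cases N (14 + 4 * i) with hx | hx | hx | hx | hx | hx | hx | hx | hx | hx | hx | hx |
    ⟨j, hj, hx⟩ | ⟨j, hj, hx⟩ | ⟨j, hj, hx⟩ | ⟨j, hj, hx⟩ | hx <;> omega
theorem wd15 (N i : ℕ) (hi : i < N) : wd N (15 + 4 * i) = 3 * N + 6 + (N - i) := by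
  rcases wd_cases N (15 + 4 * i) with hx | hx | hx | hx | hx | hx | hx | hx | hx | hx | hx | hx |
    ⟨j, hj, hx⟩ | ⟨j, hj, hx⟩ | ⟨j, hj, hx⟩ | ⟨j, hj, hx⟩ | hx <;> omega

/-- Positions of the first occurrence. -/
def inE (x : ℕ) : Prop := x = 0 ∨ x = 1 ∨ x = 2 ∨ x = 4 ∨ x = 6 ∨ x = 9 ∨ (12 ≤ x ∧ x % 2 = 0)

instance : DecidablePred inE := fun x => by unfold inE; infer_instance

/-- Positions of the first occurrence. -/
def SE (N : ℕ) : Finset ℕ := (Finset.range (4 * N + 12)).filter inE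
/-- Positions of the second occurrence. -/
def SF (N : ℕ) : Finset ℕ := (Finset.range (4 * N + 12)).filter (fun x => ¬ inE x)

/-- The map sending the first occurrence to the second one. -/
def ps (x : ℕ) : ℕ :=
  if x = 0 then 3 else if x = 1 then 5 else if x = 2 then 7 else if x = 4 then 8
  else if x = 6 then 10 else if x = 9 then 11 else x + 1

theorem SE_cases (N x : ℕ) (hx : x ∈ SE N) :
    (x = 0 ∧ wd N x = 3 * N + 5 ∧ ps x = 3 ∧ wd N (ps x) = 4 * N + 7) ∨
    (x = 1 ∧ wd N x = 4 * N + 10 ∧ ps x = 5 ∧ wd N (ps x) = 4 * N + 8) ∨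
    (x = 2 ∧ wd N x = N + 1 ∧ ps x = 7 ∧ wd N (ps x) = 2 * N + 3) ∨
    (x = 4 ∧ wd N x = 2 * N + 4 ∧ ps x = 8 ∧ wd N (ps x) = 3 * N + 6) ∨
    (x = 6 ∧ wd N x = 0 ∧ ps x = 10 ∧ wd N (ps x) = N + 2) ∨
    (x = 9 ∧ wd N x = 4 * N + 11 ∧ ps x = 11 ∧ wd N (ps x) = 4 * N + 9) ∨
    (∃ i, i < N ∧ x = 12 + 4 * i ∧ wd N x = 1 + i ∧ ps x = 13 + 4 * i ∧
      wd N (ps x) = N + 3 + i) ∨
    (∃ i, i < N ∧ x = 14 + 4 * i ∧ wd N x = 2 * N + 4 + (N - i) ∧ ps x = 15 + 4 * i ∧
      wd N (ps x) = 3 * N + 6 + (N - i)) := by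
  rw [SE, Finset.mem_filter, Finset.mem_range] at hx
  obtain ⟨hx, h⟩ := hx
  rcases h with rfl | rfl | rfl | rfl | rfl | rfl | ⟨h1, h2⟩
  · left; simp [ps, wd0, wd3]
  · right; left; simp [ps, wd1, wd5]
  · iterate 2 right
    left; simp [ps, wd2, wd7]
  · iterate 3 right
    left; simp [ps, wd4, wd8]
  · iterate 4 right
    left; simp [ps, wd6, wd10]
  · iterate 5 right
    left; simp [ps, wd9, wd11]
  · iterate 6 right
    have hps : ps x = x + 1 := by
      simp only [ps]
      split_ifs <;> omega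
    obtain ⟨i, hi⟩ : ∃ i, x = 12 + 4 * i ∨ x = 14 + 4 * i := ⟨(x - 12) / 4, by omega⟩
    rcases hi with rfl | rfl
    · left
      have hi : i < N := by omega
      have h3 : ps (12 + 4 * i) = 13 + 4 * i := by omega
      exact ⟨i, hi, rfl, wd12 N i hi, h3, by rw [h3, wd13 N i hi]⟩
    · right
      have hi : i < N := by omega
      have h3 : ps (14 + 4 * i) = 15 + 4 * i := by omega
      exact ⟨i, hi, rfl, wd14 N i hi, h3, by rw [h3, wd15 N i hi]⟩

theorem SF_cases (N x : ℕ) (hx : x ∈ SF N) :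
    (x = 3 ∧ wd N x = 4 * N + 7) ∨ (x = 5 ∧ wd N x = 4 * N + 8) ∨ (x = 7 ∧ wd N x = 2 * N + 3) ∨
    (x = 8 ∧ wd N x = 3 * N + 6) ∨ (x = 10 ∧ wd N x = N + 2) ∨ (x = 11 ∧ wd N x = 4 * N + 9) ∨
    (∃ i, i < N ∧ x = 13 + 4 * i ∧ wd N x = N + 3 + i) ∨
    (∃ i, i < N ∧ x = 15 + 4 * i ∧ wd N x = 3 * N + 6 + (N - i)) := by
  rw [SF, Finset.mem_filter, Finset.mem_range] at hx
  obtain ⟨hx, h⟩ := hx
  simp only [inE] at h
  rcases wd_cases N x with hx | hx | hx | hx | hx | hx | hx | hx | hx | hx | hx | hx |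
    ⟨j, hj, hx⟩ | ⟨j, hj, hx⟩ | ⟨j, hj, hx⟩ | ⟨j, hj, hx⟩ | hx
  · omega
  · omega
  · omega
  · left; exact hx
  · omega
  · right; left; exact hx
  · omega
  · iterate 2 right
    left; exact hx
  · iterate 3 right
    left; exact hx
  · omega
  · iterate 4 right
    left; exact hx
  · iterate 5 right
    left; exact hx
  · omega
  · iterate 6 right
    left; exact ⟨j, hj, hx⟩
  · omega
  · iterate 7 right
    exact ⟨j, hj, hx⟩
  · omega

theorem mem_SE (N x : ℕ) : x ∈ SE N ↔ x < 4 * N + 12 ∧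
    (x = 0 ∨ x = 1 ∨ x = 2 ∨ x = 4 ∨ x = 6 ∨ x = 9 ∨ (12 ≤ x ∧ x % 2 = 0)) := by
  rw [SE, Finset.mem_filter, Finset.mem_range, inE]

theorem mem_SF (N x : ℕ) : x ∈ SF N ↔ x < 4 * N + 12 ∧
    ¬ (x = 0 ∨ x = 1 ∨ x = 2 ∨ x = 4 ∨ x = 6 ∨ x = 9 ∨ (12 ≤ x ∧ x % 2 = 0)) := by
  rw [SF, Finset.mem_filter, Finset.mem_range, inE]

/-- `ps` preserves positions. -/
theorem ps_lt (N x y : ℕ) (hx : x ∈ SE N) (hy : y ∈ SE N) (h : x < y) : ps x < ps y := by
  rcases SE_cases N x hx with hx | hx | hx | hx | hx | hx | ⟨i, hi, hx⟩ | ⟨i, hi, hx⟩ <;>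
  rcases SE_cases N y hy with hy | hy | hy | hy | hy | hy | ⟨j, hj, hy⟩ | ⟨j, hj, hy⟩ <;>
  omega

theorem ps_wd (N x y : ℕ) (hx : x ∈ SE N) (hy : y ∈ SE N) :
    wd N x < wd N y ↔ wd N (ps x) < wd N (ps y) := by
  rcases SE_cases N x hx with hx | hx | hx | hx | hx | hx | ⟨i, hi, hx⟩ | ⟨i, hi, hx⟩ <;>
  rcases SE_cases N y hy with hy | hy | hy | hy | hy | hy | ⟨j, hj, hy⟩ | ⟨j, hj, hy⟩ <;>
  omega

theorem ps_mem (N x : ℕ) (hx : x ∈ SE N) : ps x ∈ SF N := by
  rw [mem_SF]
  rcases SE_cases N x hx with hx | hx | hx | hx | hx | hx | ⟨i, hi, hx⟩ | ⟨i, hi, hx⟩ <;>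
  omega

theorem ps_surj (N y : ℕ) (hy : y ∈ SF N) : ∃ x ∈ SE N, ps x = y := by
  rcases SF_cases N y hy with hy | hy | hy | hy | hy | hy | ⟨j, hj, hy⟩ | ⟨j, hj, hy⟩
  · exact ⟨0, by rw [mem_SE]; omega, by simp [ps, hy]⟩
  · exact ⟨1, by rw [mem_SE]; omega, by simp [ps, hy]⟩
  · exact ⟨2, by rw [mem_SE]; omega, by simp [ps, hy]⟩
  · exact ⟨4, by rw [mem_SE]; omega, by simp [ps, hy]⟩
  · exact ⟨6, by rw [mem_SE]; omega, by simp [ps, hy]⟩
  · exact ⟨9, by rw [mem_SE]; omega, by simp [ps, hy]⟩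
  · refine ⟨12 + 4 * j, by rw [mem_SE]; omega, ?_⟩
    simp only [ps]
    split_ifs <;> omega
  · refine ⟨14 + 4 * j, by rw [mem_SE]; omega, ?_⟩
    simp only [ps]
    split_ifs <;> omega

/-! ### Classification of the occurrences -/

/-- The values at the first twelve positions, up to order isomorphism. -/
def tb : Fin 12 → ℕ := ![5, 10, 1, 7, 4, 8, 0, 3, 6, 11, 2, 9]

theorem wd_tb (N : ℕ) (x y : Fin 12) : wd N x < wd N y ↔ tb x < tb y := by
  fin_cases x <;> fin_cases y <;> simp [tb, wd] <;> omega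

set_option synthInstance.maxSize 2000 in
set_option maxRecDepth 100000 in
theorem fin_check : ∀ a b : Fin 12, a < b → tb a < tb b → ∀ c, b < c → ∀ d, c < d →
    tb c < tb d → tb d < tb a → ∀ e, d < e → tb e < tb c → ∀ f, e < f → tb b < tb f →
    (a = 0 ∧ b = 1 ∧ c = 2 ∧ d = 4 ∧ e = 6 ∧ f = 9) ∨
    (a = 3 ∧ b = 5 ∧ c = 7 ∧ d = 8 ∧ e = 10 ∧ f = 11) := by
  decide

theorem id_of_mono (N : ℕ) (G : ℕ → ℕ) (h1 : ∀ i < N, G i < N)
    (h2 : ∀ i j, i < j → j < N → G i < G j) : ∀ i < N, G i = i := by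
  have hlow : ∀ i, i < N → i ≤ G i := by
    intro i
    induction i with
    | zero => intro _; exact Nat.zero_le _
    | succ i ih =>
      intro hi
      have := ih (by omega)
      have := h2 i (i + 1) (by omega) hi
      omega
  have hup : ∀ k i, i + k < N → G i + k ≤ G (i + k) := by
    intro k
    induction k with
    | zero => intro i _; simp
    | succ k ih =>
      intro i hi
      have := ih i (by omega)
      have := h2 (i + k) (i + (k + 1)) (by omega) hi
      omega
  intro i hi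
  have a := hlow i hi
  have b := hup (N - 1 - i) i (by omega)
  have c := h1 (i + (N - 1 - i)) (by omega)
  omega

theorem region_inc (N x y : ℕ) (hx : 12 ≤ x) (hxy : x < y) (hy : y < 4 * N + 12)
    (h : (x - 12) / 4 = (y - 12) / 4) : wd N x < wd N y := by
  rcases wd_cases N x with hx | hx | hx | hx | hx | hx | hx | hx | hx | hx | hx | hx |
    ⟨i, hi, hx⟩ | ⟨i, hi, hx⟩ | ⟨i, hi, hx⟩ | ⟨i, hi, hx⟩ | hx <;> try omega
  all_goals
  rcases wd_cases N y with hy | hy | hy | hy | hy | hy | hy | hy | hy | hy | hy | hy |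
    ⟨j, hj, hy⟩ | ⟨j, hj, hy⟩ | ⟨j, hj, hy⟩ | ⟨j, hj, hy⟩ | hy <;>
  omega

/-- Every order preserving map of the first occurrence into the word is the inclusion or `ps`. -/
theorem maps_cases (N : ℕ) (g : ℕ → ℕ) (h1 : ∀ x ∈ SE N, g x < 4 * N + 12)
    (h2 : ∀ x ∈ SE N, ∀ y ∈ SE N, x < y → g x < g y)
    (h3 : ∀ x ∈ SE N, ∀ y ∈ SE N, (wd N x < wd N y ↔ wd N (g x) < wd N (g y))) :
    (∀ x ∈ SE N, g x = x) ∨ (∀ x ∈ SE N, g x = ps x) := by
  have m0 : 0 ∈ SE N := by rw [mem_SE]; omega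
  have m1 : 1 ∈ SE N := by rw [mem_SE]; omega
  have m2 : 2 ∈ SE N := by rw [mem_SE]; omega
  have m4 : 4 ∈ SE N := by rw [mem_SE]; omega
  have m6 : 6 ∈ SE N := by rw [mem_SE]; omega
  have m9 : 9 ∈ SE N := by rw [mem_SE]; omega
  have m12 : ∀ i, i < N → 12 + 4 * i ∈ SE N := fun i hi => by rw [mem_SE]; omega
  have m14 : ∀ i, i < N → 14 + 4 * i ∈ SE N := fun i hi => by rw [mem_SE]; omega
  -- Step 1: position 9 stays among the first twelve positions
  have s1 : g 9 < 12 := by
    by_contra hcon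
    have key : ∀ i, i < N → 12 + 4 * (i + 1) ≤ g (12 + 4 * i) := by
      intro i
      induction i with
      | zero =>
        intro h0
        have a1 := h2 9 m9 (12 + 4 * 0) (m12 0 h0) (by omega)
        have a2 := (h3 (12 + 4 * 0) (m12 0 h0) 9 m9).1 (by rw [wd12 N 0 h0, wd9]; omega)
        have a3 := h1 (12 + 4 * 0) (m12 0 h0)
        by_contra hc
        have a4 := region_inc N (g 9) (g (12 + 4 * 0)) (by omega) a1 a3 (by omega)
        omega
      | succ i ih =>
        intro hi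
        have b := ih (by omega)
        have a1 := h2 (12 + 4 * i) (m12 i (by omega)) (14 + 4 * i) (m14 i (by omega)) (by omega)
        have a2 := h2 (14 + 4 * i) (m14 i (by omega)) (12 + 4 * (i + 1)) (m12 (i + 1) hi) (by omega)
        have a3 := (h3 (12 + 4 * (i + 1)) (m12 (i + 1) hi) (14 + 4 * i) (m14 i (by omega))).1
          (by rw [wd12 N (i + 1) hi, wd14 N i (by omega)]; omega)
        have a4 := h1 (12 + 4 * (i + 1)) (m12 (i + 1) hi)
        by_contra hc
        have a5 := region_inc N (g (14 + 4 * i)) (g (12 + 4 * (i + 1))) (by omega) a2 a4 (by omega)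
        omega
    rcases Nat.eq_zero_or_pos N with h0 | h0
    · have := h1 9 m9
      omega
    · have a1 := key (N - 1) (by omega)
      have a2 := h1 (12 + 4 * (N - 1)) (m12 (N - 1) (by omega))
      omega
  have l1 := h2 0 m0 1 m1 (by omega)
  have l2 := h2 1 m1 2 m2 (by omega)
  have l3 := h2 2 m2 4 m4 (by omega)
  have l4 := h2 4 m4 6 m6 (by omega)
  have l5 := h2 6 m6 9 m9 (by omega)
  have v1 := (h3 0 m0 1 m1).1 (by rw [wd0, wd1]; omega)
  have v2 := (h3 2 m2 4 m4).1 (by rw [wd2, wd4]; omega)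
  have v3 := (h3 4 m4 0 m0).1 (by rw [wd4, wd0]; omega)
  have v4 := (h3 6 m6 2 m2).1 (by rw [wd6, wd2]; omega)
  have v5 := (h3 1 m1 9 m9).1 (by rw [wd1, wd9]; omega)
  -- Step 2: the special part
  have s2 := fin_check ⟨g 0, by omega⟩ ⟨g 1, by omega⟩ l1 ((wd_tb N _ _).1 v1)
    ⟨g 2, by omega⟩ l2 ⟨g 4, by omega⟩ l3 ((wd_tb N _ _).1 v2) ((wd_tb N _ _).1 v3)
    ⟨g 6, by omega⟩ l4 ((wd_tb N _ _).1 v4) ⟨g 9, s1⟩ l5 ((wd_tb N _ _).1 v5)
  simp only [Fin.ext_iff] at s2
  rcases s2 with ⟨e0, e1, e2, e4, e6, e9⟩ | ⟨e0, e1, e2, e4, e6, e9⟩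
  · left
    have e0 : g 0 = 0 := e0
    have e1 : g 1 = 1 := e1
    have e2 : g 2 = 2 := e2
    have e4 : g 4 = 4 := e4
    have e6 : g 6 = 6 := e6
    have e9 : g 9 = 9 := e9
    have t12 : ∀ i, i < N → ∃ j, j < N ∧ g (12 + 4 * i) = 12 + 4 * j := by
      intro i hi
      have a1 := (h3 6 m6 _ (m12 i hi)).1 (by rw [wd6, wd12 N i hi]; omega)
      have a2 := (h3 _ (m12 i hi) 2 m2).1 (by rw [wd2, wd12 N i hi]; omega)
      rw [e6, wd6] at a1
      rw [e2, wd2] at a2
      rcases wd_cases N (g (12 + 4 * i)) with hx | hx | hx | hx | hx | hx | hx | hx | hx | hx | hx |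
        hx | ⟨j, hj, hx⟩ | ⟨j, hj, hx⟩ | ⟨j, hj, hx⟩ | ⟨j, hj, hx⟩ | hx <;> try omega
      exact ⟨j, hj, hx.1⟩
    have t14 : ∀ i, i < N → ∃ j, j < N ∧ g (14 + 4 * i) = 14 + 4 * j := by
      intro i hi
      have a1 := (h3 4 m4 _ (m14 i hi)).1 (by rw [wd4, wd14 N i hi]; omega)
      have a2 := (h3 _ (m14 i hi) 0 m0).1 (by rw [wd0, wd14 N i hi]; omega)
      rw [e4, wd4] at a1
      rw [e0, wd0] at a2
      rcases wd_cases N (g (14 + 4 * i)) with hx | hx | hx | hx | hx | hx | hx | hx | hx | hx | hx |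
        hx | ⟨j, hj, hx⟩ | ⟨j, hj, hx⟩ | ⟨j, hj, hx⟩ | ⟨j, hj, hx⟩ | hx <;> try omega
      exact ⟨j, hj, hx.1⟩
    have u12 := id_of_mono N (fun i => (g (12 + 4 * i) - 12) / 4)
      (by
        intro i hi
        obtain ⟨j, hj, h⟩ := t12 i hi
        simp only [h]
        omega)
      (by
        intro i j hij hj
        obtain ⟨i', hi', h⟩ := t12 i (by omega)
        obtain ⟨j', hj', h'⟩ := t12 j hj
        have := h2 _ (m12 i (by omega)) _ (m12 j hj) (by omega)
        simp only [h, h'] at this ⊢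
        omega)
    have u14 := id_of_mono N (fun i => (g (14 + 4 * i) - 14) / 4)
      (by
        intro i hi
        obtain ⟨j, hj, h⟩ := t14 i hi
        simp only [h]
        omega)
      (by
        intro i j hij hj
        obtain ⟨i', hi', h⟩ := t14 i (by omega)
        obtain ⟨j', hj', h'⟩ := t14 j hj
        have := h2 _ (m14 i (by omega)) _ (m14 j hj) (by omega)
        simp only [h, h'] at this ⊢
        omega)
    intro x hx
    rcases SE_cases N x hx with hx | hx | hx | hx | hx | hx | ⟨i, hi, hx⟩ | ⟨i, hi, hx⟩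
    · rw [hx.1, e0]
    · rw [hx.1, e1]
    · rw [hx.1, e2]
    · rw [hx.1, e4]
    · rw [hx.1, e6]
    · rw [hx.1, e9]
    · obtain ⟨j, hj, h⟩ := t12 i hi
      have := u12 i hi
      simp only [h] at this
      rw [hx.1, h]
      omega
    · obtain ⟨j, hj, h⟩ := t14 i hi
      have := u14 i hi
      simp only [h] at this
      rw [hx.1, h]
      omega
  · right
    have e0 : g 0 = 3 := e0
    have e1 : g 1 = 5 := e1
    have e2 : g 2 = 7 := e2
    have e4 : g 4 = 8 := e4
    have e6 : g 6 = 10 := e6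
    have e9 : g 9 = 11 := e9
    have t12 : ∀ i, i < N → ∃ j, j < N ∧ g (12 + 4 * i) = 13 + 4 * j := by
      intro i hi
      have a1 := (h3 6 m6 _ (m12 i hi)).1 (by rw [wd6, wd12 N i hi]; omega)
      have a2 := (h3 _ (m12 i hi) 2 m2).1 (by rw [wd2, wd12 N i hi]; omega)
      rw [e6, wd10] at a1
      rw [e2, wd7] at a2
      rcases wd_cases N (g (12 + 4 * i)) with hx | hx | hx | hx | hx | hx | hx | hx | hx | hx | hx |
        hx | ⟨j, hj, hx⟩ | ⟨j, hj, hx⟩ | ⟨j, hj, hx⟩ | ⟨j, hj, hx⟩ | hx <;> try omega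
      exact ⟨j, hj, hx.1⟩
    have t14 : ∀ i, i < N → ∃ j, j < N ∧ g (14 + 4 * i) = 15 + 4 * j := by
      intro i hi
      have a1 := (h3 4 m4 _ (m14 i hi)).1 (by rw [wd4, wd14 N i hi]; omega)
      have a2 := (h3 _ (m14 i hi) 0 m0).1 (by rw [wd0, wd14 N i hi]; omega)
      rw [e4, wd8] at a1
      rw [e0, wd3] at a2
      rcases wd_cases N (g (14 + 4 * i)) with hx | hx | hx | hx | hx | hx | hx | hx | hx | hx | hx |
        hx | ⟨j, hj, hx⟩ | ⟨j, hj, hx⟩ | ⟨j, hj, hx⟩ | ⟨j, hj, hx⟩ | hx <;> try omega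
      exact ⟨j, hj, hx.1⟩
    have u12 := id_of_mono N (fun i => (g (12 + 4 * i) - 13) / 4)
      (by
        intro i hi
        obtain ⟨j, hj, h⟩ := t12 i hi
        simp only [h]
        omega)
      (by
        intro i j hij hj
        obtain ⟨i', hi', h⟩ := t12 i (by omega)
        obtain ⟨j', hj', h'⟩ := t12 j hj
        have := h2 _ (m12 i (by omega)) _ (m12 j hj) (by omega)
        simp only [h, h'] at this ⊢
        omega)
    have u14 := id_of_mono N (fun i => (g (14 + 4 * i) - 15) / 4)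
      (by
        intro i hi
        obtain ⟨j, hj, h⟩ := t14 i hi
        simp only [h]
        omega)
      (by
        intro i j hij hj
        obtain ⟨i', hi', h⟩ := t14 i (by omega)
        obtain ⟨j', hj', h'⟩ := t14 j hj
        have := h2 _ (m14 i (by omega)) _ (m14 j hj) (by omega)
        simp only [h, h'] at this ⊢
        omega)
    intro x hx
    rcases SE_cases N x hx with hx | hx | hx | hx | hx | hx | ⟨i, hi, hx⟩ | ⟨i, hi, hx⟩
    · rw [hx.2.2.1, hx.1, e0]
    · rw [hx.2.2.1, hx.1, e1]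
    · rw [hx.2.2.1, hx.1, e2]
    · rw [hx.2.2.1, hx.1, e4]
    · rw [hx.2.2.1, hx.1, e6]
    · rw [hx.2.2.1, hx.1, e9]
    · obtain ⟨j, hj, h⟩ := t12 i hi
      have := u12 i hi
      simp only [h] at this
      rw [hx.2.2.1, hx.1, h]
      omega
    · obtain ⟨j, hj, h⟩ := t14 i hi
      have := u14 i hi
      simp only [h] at this
      rw [hx.2.2.1, hx.1, h]
      omega

theorem SE_disj (N : ℕ) : Disjoint (SE N) (SF N) := by
  rw [Finset.disjoint_left]
  intro x hx hy
  rw [mem_SE] at hx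
  rw [mem_SF] at hy
  exact hy.2 hx.2

theorem SE_union (N : ℕ) : SE N ∪ SF N = Finset.range (4 * N + 12) := by
  ext x
  rw [Finset.mem_union, mem_SE, mem_SF, Finset.mem_range]
  tauto

theorem card_eq (N : ℕ) : (SE N).card = (SF N).card := by
  refine Finset.card_bij (fun x _ => ps x) (fun x hx => ps_mem N x hx) ?_ ?_
  · intro x hx y hy h
    rcases lt_trichotomy x y with h1 | h1 | h1
    · have := ps_lt N x y hx hy h1
      omega
    · exact h1
    · have := ps_lt N y x hy hx h1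
      omega
  · intro y hy
    obtain ⟨x, hx, h⟩ := ps_surj N y hy
    exact ⟨x, hx, h⟩

theorem card_SE (N : ℕ) : (SE N).card = 2 * N + 6 := by
  have h1 := Finset.card_union_of_disjoint (SE_disj N)
  rw [SE_union, Finset.card_range, ← card_eq] at h1
  omega

theorem pat_SE_eq (N : ℕ) :
    pat (wd N) (wd_injective N) (SE N) = pat (wd N) (wd_injective N) (SF N) :=
  pat_eq_of_map (wd N) (wd_injective N) (card_eq N) ps (fun x hx => ps_mem N x hx)
    (fun x hx y hy h => ps_lt N x y hx hy h) (fun x hx y hy => ps_wd N x y hx hy)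

/-- Positions of the second occurrence lie in different cells of the first one. -/
theorem cellE_lt (N q q' : ℕ) (hq : q ∈ SF N) (hq' : q' ∈ SF N) (hlt : q < q')
    (h : ∀ u ∈ SE N, (u < q ↔ u < q') ∧ (wd N u < wd N q ↔ wd N u < wd N q')) : False := by
  have m0 : 0 ∈ SE N := by rw [mem_SE]; omega
  have m6 : 6 ∈ SE N := by rw [mem_SE]; omega
  have m9 : 9 ∈ SE N := by rw [mem_SE]; omega
  have a0 := (h 0 m0).2
  have a6 := (h 6 m6).1
  have a9 := (h 9 m9).1
  rw [wd0] at a0
  have hlast : q' - 1 ∈ SE N → False := by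
    intro hm
    have := (h _ hm).1
    have hne : q ≠ q' - 1 := by
      rintro rfl
      rw [mem_SE] at hm
      rw [mem_SF] at hq
      exact hq.2 hm.2
    omega
  have hm : ∀ x, x ∈ SE N ↔ _ := mem_SE N
  rcases SF_cases N q' hq' with hy | hy | hy | hy | hy | hy | ⟨j, hj, hy⟩ | ⟨j, hj, hy⟩
  · exact hlast (by rw [mem_SE]; omega)
  · exact hlast (by rw [mem_SE]; omega)
  · exact hlast (by rw [mem_SE]; omega)
  · rcases SF_cases N q hq with hx | hx | hx | hx | hx | hx | ⟨i, hi, hx⟩ | ⟨i, hi, hx⟩ <;> omega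
  · exact hlast (by rw [mem_SE]; omega)
  · rcases SF_cases N q hq with hx | hx | hx | hx | hx | hx | ⟨i, hi, hx⟩ | ⟨i, hi, hx⟩ <;> omega
  · exact hlast (by rw [mem_SE]; omega)
  · exact hlast (by rw [mem_SE]; omega)

theorem cellE (N q q' : ℕ) (hq : q ∈ SF N) (hq' : q' ∈ SF N)
    (h : ∀ u ∈ SE N, (u < q ↔ u < q') ∧ (wd N u < wd N q ↔ wd N u < wd N q')) : q = q' := by
  rcases lt_trichotomy q q' with h1 | h1 | h1
  · exact (cellE_lt N q q' hq hq' h1 h).elim
  · exact h1
  · exact (cellE_lt N q' q hq' hq h1 (fun u hu => ⟨(h u hu).1.symm, (h u hu).2.symm⟩)).elim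

/-- Positions of the first occurrence lie in different cells of the second one. -/
theorem cellF_lt (N p p' : ℕ) (hp : p ∈ SE N) (hp' : p' ∈ SE N) (hlt : p < p')
    (h : ∀ u ∈ SF N, (u < p ↔ u < p') ∧ (wd N u < wd N p ↔ wd N u < wd N p')) : False := by
  have m8 : 8 ∈ SF N := by rw [mem_SF]; omega
  have m10 : 10 ∈ SF N := by rw [mem_SF]; omega
  have a8 := (h 8 m8).2
  have a10 := (h 10 m10).2
  rw [wd8] at a8
  rw [wd10] at a10
  have hlast : p' - 1 ∈ SF N → False := by
    intro hm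
    have := (h _ hm).1
    have hne : p ≠ p' - 1 := by
      rintro rfl
      rw [mem_SF] at hm
      rw [mem_SE] at hp
      exact hm.2 hp.2
    omega
  rcases SE_cases N p' hp' with hy | hy | hy | hy | hy | hy | ⟨j, hj, hy⟩ | ⟨j, hj, hy⟩
  · omega
  · rcases SE_cases N p hp with hx | hx | hx | hx | hx | hx | ⟨i, hi, hx⟩ | ⟨i, hi, hx⟩ <;> omega
  · rcases SE_cases N p hp with hx | hx | hx | hx | hx | hx | ⟨i, hi, hx⟩ | ⟨i, hi, hx⟩ <;> omega
  · exact hlast (by rw [mem_SF]; omega)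
  · exact hlast (by rw [mem_SF]; omega)
  · exact hlast (by rw [mem_SF]; omega)
  · exact hlast (by rw [mem_SF]; omega)
  · exact hlast (by rw [mem_SF]; omega)

theorem cellF (N p p' : ℕ) (hp : p ∈ SE N) (hp' : p' ∈ SE N)
    (h : ∀ u ∈ SF N, (u < p ↔ u < p') ∧ (wd N u < wd N p ↔ wd N u < wd N p')) : p = p' := by
  rcases lt_trichotomy p p' with h1 | h1 | h1
  · exact (cellF_lt N p p' hp hp' h1 h).elim
  · exact h1
  · exact (cellF_lt N p' p hp' hp h1 (fun u hu => ⟨(h u hu).1.symm, (h u hu).2.symm⟩)).elim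

/-- A second-occurrence position in a cell of the first occurrence which corresponds to the cell
(of the second occurrence) of a first-occurrence position. -/
theorem cellR (N q p : ℕ) (hq : q ∈ SF N) (hp : p ∈ SE N)
    (h : ∀ u ∈ SE N, (u < q ↔ ps u < p) ∧ (wd N u < wd N q ↔ wd N (ps u) < wd N p)) :
    ∃ i, i < N ∧ q = 13 + 4 * i ∧ p = 14 + 4 * i := by
  have m9 : 9 ∈ SE N := by rw [mem_SE]; omega
  have a9 := (h 9 m9).1
  have p9 : ps 9 = 11 := by simp [ps]
  have ap := h p hp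
  have hqp : q < p := by
    have hne : q ≠ p := by
      rintro rfl
      rw [mem_SE] at hp
      rw [mem_SF] at hq
      exact hq.2 hp.2
    have h2 : p < ps p := by
      rcases SE_cases N p hp with hx | hx | hx | hx | hx | hx | ⟨i, hi, hx⟩ | ⟨i, hi, hx⟩ <;> omega
    omega
  have hwne : wd N q ≠ wd N p := fun h => absurd (wd_injective N h) (by omega)
  rw [p9] at a9
  rcases SE_cases N p hp with hx | hx | hx | hx | hx | hx | ⟨i, hi, hx⟩ | ⟨i, hi, hx⟩
  · rcases SF_cases N q hq with hy | hy | hy | hy | hy | hy | ⟨j, hj, hy⟩ | ⟨j, hj, hy⟩ <;> omega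
  · rcases SF_cases N q hq with hy | hy | hy | hy | hy | hy | ⟨j, hj, hy⟩ | ⟨j, hj, hy⟩ <;> omega
  · rcases SF_cases N q hq with hy | hy | hy | hy | hy | hy | ⟨j, hj, hy⟩ | ⟨j, hj, hy⟩ <;> omega
  · rcases SF_cases N q hq with hy | hy | hy | hy | hy | hy | ⟨j, hj, hy⟩ | ⟨j, hj, hy⟩ <;> omega
  · rcases SF_cases N q hq with hy | hy | hy | hy | hy | hy | ⟨j, hj, hy⟩ | ⟨j, hj, hy⟩ <;> omega
  · rcases SF_cases N q hq with hy | hy | hy | hy | hy | hy | ⟨j, hj, hy⟩ | ⟨j, hj, hy⟩ <;> omega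
  · rcases SF_cases N q hq with hy | hy | hy | hy | hy | hy | ⟨j, hj, hy⟩ | ⟨j, hj, hy⟩ <;> omega
  · have hN : 0 < N := by omega
    have m12 : 12 ∈ SE N := by rw [mem_SE]; omega
    have a12 := (h 12 m12).1
    have p12 : ps 12 = 13 := by simp [ps]
    rw [p12] at a12
    rcases SF_cases N q hq with hy | hy | hy | hy | hy | hy | ⟨j, hj, hy⟩ | ⟨j, hj, hy⟩
    · omega
    · omega
    · omega
    · omega
    · omega
    · omega
    · have mm : 12 + 4 * j ∈ SE N := by rw [mem_SE]; omega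
      have mm2 : 14 + 4 * j ∈ SE N := by rw [mem_SE]; omega
      have b1 := (h _ mm).1
      have b2 := (h _ mm2).1
      have c1 : ps (12 + 4 * j) = 13 + 4 * j := by simp only [ps]; split_ifs <;> omega
      have c2 : ps (14 + 4 * j) = 15 + 4 * j := by simp only [ps]; split_ifs <;> omega
      rw [c1] at b1
      rw [c2] at b2
      exact ⟨j, hj, hy.1, by omega⟩
    · omega

theorem cellR_conv (N i x : ℕ) (hi : i < N) (hx : x ∈ SE N) :
    ((x < 13 + 4 * i ↔ ps x < 14 + 4 * i) ∧ (13 + 4 * i < x ↔ 14 + 4 * i < ps x)) ∧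
    (wd N x < wd N (13 + 4 * i) ↔ wd N (ps x) < wd N (14 + 4 * i)) ∧
    (wd N (13 + 4 * i) < wd N x ↔ wd N (14 + 4 * i) < wd N (ps x)) := by
  rw [wd13 N i hi, wd14 N i hi]
  rcases SE_cases N x hx with hx | hx | hx | hx | hx | hx | ⟨j, hj, hx⟩ | ⟨j, hj, hx⟩ <;>
    refine ⟨⟨?_, ?_⟩, ?_, ?_⟩ <;> omega

/-- Abbreviation for patterns of the word. -/
noncomputable abbrev pt (N : ℕ) (S : Finset ℕ) : Pm := pat (wd N) (wd_injective N) S

theorem hyp_A (N : ℕ) (S : Finset ℕ) (hS : S ⊆ SE N ∪ SF N) (h : Cont (pt N (SE N)) (pt N S)) :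
    SE N ⊆ S ∨ SF N ⊆ S := by
  obtain ⟨g, h1, h2, h3⟩ := (cont_pat_pat_iff _ _ _ _).1 h
  rcases maps_cases N g (fun x hx => by
    have := hS (h1 x hx)
    rwa [SE_union, Finset.mem_range] at this) h2 h3 with h4 | h4
  · left
    intro x hx
    have := h1 x hx
    rwa [h4 x hx] at this
  · right
    intro y hy
    obtain ⟨x, hx, rfl⟩ := ps_surj N y hy
    have := h1 x hx
    rwa [h4 x hx] at this

theorem hyp_E (N : ℕ) (T T' : Finset ℕ) (hT : T ⊆ SF N) (hT' : T' ⊆ SF N) (hne : T' ≠ SF N)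
    (h : Cont (pt N (SE N ∪ T)) (pt N (SE N ∪ T'))) : T ⊆ T' := by
  obtain ⟨g, h1, h2, h3⟩ := (cont_pat_pat_iff _ _ _ _).1 h
  have hsub : SE N ∪ T' ⊆ Finset.range (4 * N + 12) := by
    rw [← SE_union]
    exact Finset.union_subset_union_right hT'
  have hE : ∀ x ∈ SE N, x ∈ SE N ∪ T := fun x hx => Finset.mem_union_left _ hx
  have hid : ∀ x ∈ SE N, g x = x := by
    rcases maps_cases N g (fun x hx => Finset.mem_range.1 (hsub (h1 x (hE x hx))))
      (fun x hx y hy => h2 x (hE x hx) y (hE y hy))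
      (fun x hx y hy => h3 x (hE x hx) y (hE y hy)) with h4 | h4
    · exact h4
    · exfalso
      apply hne
      apply Finset.Subset.antisymm hT'
      intro y hy
      obtain ⟨x, hx, rfl⟩ := ps_surj N y hy
      have := h1 x (hE x hx)
      rw [h4 x hx, Finset.mem_union] at this
      rcases this with h5 | h5
      · exact absurd hy (Finset.disjoint_left.1 (SE_disj N) h5)
      · exact h5
  intro q hq
  have hqU : q ∈ SE N ∪ T := Finset.mem_union_right _ hq
  have hqE : q ∉ SE N := fun h => Finset.disjoint_left.1 (SE_disj N) h (hT hq)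
  have key : ∀ u ∈ SE N, (u < q ↔ u < g q) ∧ u ≠ g q := by
    intro u hu
    have hne : u ≠ q := fun h => hqE (h ▸ hu)
    have e := hid u hu
    rcases lt_or_gt_of_ne hne with h | h
    · have := h2 u (hE u hu) q hqU h
      omega
    · have := h2 q hqU u (hE u hu) h
      omega
  have hgq : g q ∈ T' := by
    have := h1 q hqU
    rw [Finset.mem_union] at this
    rcases this with h5 | h5
    · exact absurd rfl (key _ h5).2
    · exact h5
  have : q = g q := by
    refine cellE N q (g q) (hT hq) (hT' hgq) (fun u hu => ⟨(key u hu).1, ?_⟩)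
    have := h3 u (hE u hu) q hqU
    rwa [hid u hu] at this
  rw [this]
  exact hgq

theorem hyp_F (N : ℕ) (T T' : Finset ℕ) (hT : T ⊆ SE N) (hT' : T' ⊆ SE N) (hne : T' ≠ SE N)
    (h : Cont (pt N (SF N ∪ T)) (pt N (SF N ∪ T'))) : T ⊆ T' := by
  obtain ⟨g, h1, h2, h3⟩ := (cont_pat_pat_iff _ _ _ _).1 h
  have hsub : SF N ∪ T' ⊆ Finset.range (4 * N + 12) := by
    rw [← SE_union, Finset.union_comm (SE N)]
    exact Finset.union_subset_union_right hT'
  have hF : ∀ x ∈ SE N, ps x ∈ SF N ∪ T := fun x hx => Finset.mem_union_left _ (ps_mem N x hx)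
  have hid : ∀ x ∈ SF N, g x = x := by
    have hid' : ∀ x ∈ SE N, g (ps x) = ps x := by
      rcases maps_cases N (fun x => g (ps x))
        (fun x hx => Finset.mem_range.1 (hsub (h1 _ (hF x hx))))
        (fun x hx y hy hxy => h2 _ (hF x hx) _ (hF y hy) (ps_lt N x y hx hy hxy))
        (fun x hx y hy => (ps_wd N x y hx hy).trans (h3 _ (hF x hx) _ (hF y hy))) with h4 | h4
      · exfalso
        apply hne
        apply Finset.Subset.antisymm hT'
        intro x hx
        have h5 := h1 _ (hF x hx)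
        have h6 : g (ps x) = x := h4 x hx
        rw [h6, Finset.mem_union] at h5
        rcases h5 with h5 | h5
        · exact absurd h5 (Finset.disjoint_left.1 (SE_disj N) hx)
        · exact h5
      · exact h4
    intro y hy
    obtain ⟨x, hx, rfl⟩ := ps_surj N y hy
    exact hid' x hx
  have hF' : ∀ x ∈ SF N, x ∈ SF N ∪ T := fun x hx => Finset.mem_union_left _ hx
  intro q hq
  have hqU : q ∈ SF N ∪ T := Finset.mem_union_right _ hq
  have hqE : q ∉ SF N := fun h => Finset.disjoint_left.1 (SE_disj N) (hT hq) h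
  have key : ∀ u ∈ SF N, (u < q ↔ u < g q) ∧ u ≠ g q := by
    intro u hu
    have hne : u ≠ q := fun h => hqE (h ▸ hu)
    have e := hid u hu
    rcases lt_or_gt_of_ne hne with h | h
    · have := h2 u (hF' u hu) q hqU h
      omega
    · have := h2 q hqU u (hF' u hu) h
      omega
  have hgq : g q ∈ T' := by
    have := h1 q hqU
    rw [Finset.mem_union] at this
    rcases this with h5 | h5
    · exact absurd rfl (key _ h5).2
    · exact h5
  have : q = g q := by
    refine cellF N q (g q) (hT hq) (hT' hgq) (fun u hu => ⟨(key u hu).1, ?_⟩)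
    have := h3 u (hF' u hu) q hqU
    rwa [hid u hu] at this
  rw [this]
  exact hgq

/-- The positions giving common patterns. -/
def SC (N : ℕ) : Finset ℕ := (Finset.range N).image (fun i => 13 + 4 * i)

theorem card_SC (N : ℕ) : (SC N).card = N := by
  rw [SC, Finset.card_image_of_injective, Finset.card_range]
  intro a b h
  simp only at h
  omega

theorem mem_SC (N q : ℕ) : q ∈ SC N ↔ ∃ i, i < N ∧ q = 13 + 4 * i := by
  rw [SC, Finset.mem_image]
  constructor
  · rintro ⟨i, hi, rfl⟩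
    exact ⟨i, Finset.mem_range.1 hi, rfl⟩
  · rintro ⟨i, hi, rfl⟩
    exact ⟨i, Finset.mem_range.2 hi, rfl⟩

theorem hyp_C (N : ℕ) (T : Finset ℕ) (hT : T ⊆ SF N) :
    (∃ T', T' ⊆ SE N ∧ T' ≠ SE N ∧ pt N (SE N ∪ T) = pt N (SF N ∪ T')) ↔
      (T = ∅ ∨ ∃ q ∈ SC N, T = {q}) := by
  constructor
  · rintro ⟨T', hT', hne, heq⟩
    have hc : Cont (pt N (SE N ∪ T)) (pt N (SF N ∪ T')) := heq ▸ Cont.refl _
    obtain ⟨g, h1, h2, h3⟩ := (cont_pat_pat_iff _ _ _ _).1 hc
    have hsub : SF N ∪ T' ⊆ Finset.range (4 * N + 12) := by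
      rw [← SE_union, Finset.union_comm (SE N)]
      exact Finset.union_subset_union_right hT'
    have hE : ∀ x ∈ SE N, x ∈ SE N ∪ T := fun x hx => Finset.mem_union_left _ hx
    have hps : ∀ x ∈ SE N, g x = ps x := by
      rcases maps_cases N g (fun x hx => Finset.mem_range.1 (hsub (h1 x (hE x hx))))
        (fun x hx y hy => h2 x (hE x hx) y (hE y hy))
        (fun x hx y hy => h3 x (hE x hx) y (hE y hy)) with h4 | h4
      · exfalso
        apply hne
        apply Finset.Subset.antisymm hT'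
        intro x hx
        have := h1 x (hE x hx)
        rw [h4 x hx, Finset.mem_union] at this
        rcases this with h5 | h5
        · exact absurd h5 (Finset.disjoint_left.1 (SE_disj N) hx)
        · exact h5
      · exact h4
    have key : ∀ q ∈ T, ∃ i, i < N ∧ q = 13 + 4 * i ∧ g q = 14 + 4 * i := by
      intro q hq
      have hqU : q ∈ SE N ∪ T := Finset.mem_union_right _ hq
      have hqE : q ∉ SE N := fun h => Finset.disjoint_left.1 (SE_disj N) h (hT hq)
      have key : ∀ u ∈ SE N, (u < q ↔ ps u < g q) ∧ ps u ≠ g q := by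
        intro u hu
        have hne : u ≠ q := fun h => hqE (h ▸ hu)
        have e := hps u hu
        rcases lt_or_gt_of_ne hne with h | h
        · have := h2 u (hE u hu) q hqU h
          omega
        · have := h2 q hqU u (hE u hu) h
          omega
      have hgq : g q ∈ T' := by
        have := h1 q hqU
        rw [Finset.mem_union] at this
        rcases this with h5 | h5
        · obtain ⟨x, hx, h6⟩ := ps_surj N _ h5
          exact absurd h6 (key x hx).2
        · exact h5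
      refine cellR N q (g q) (hT hq) (hT' hgq) (fun u hu => ⟨(key u hu).1, ?_⟩)
      have := h3 u (hE u hu) q hqU
      rwa [hps u hu] at this
    rcases T.eq_empty_or_nonempty with h0 | ⟨q, hq⟩
    · left; exact h0
    · right
      obtain ⟨i, hi, hqi, hgi⟩ := key q hq
      refine ⟨q, (mem_SC N q).2 ⟨i, hi, hqi⟩, ?_⟩
      ext r
      rw [Finset.mem_singleton]
      constructor
      · intro hr
        obtain ⟨j, hj, hrj, hgj⟩ := key r hr
        have a1 := h3 q (Finset.mem_union_right _ hq) r (Finset.mem_union_right _ hr)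
        have a2 := h3 r (Finset.mem_union_right _ hr) q (Finset.mem_union_right _ hq)
        rw [hgi, hgj, hqi, hrj, wd13 N i hi, wd13 N j hj, wd14 N i hi, wd14 N j hj] at a1 a2
        omega
      · rintro rfl
        exact hq
  · rintro (rfl | ⟨q, hq, rfl⟩)
    · refine ⟨∅, Finset.empty_subset _, ?_, ?_⟩
      · intro h
        have m0 : 0 ∈ SE N := by rw [mem_SE]; omega
        rw [← h] at m0
        simp at m0
      · rw [Finset.union_empty, Finset.union_empty]
        exact pat_SE_eq N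
    · obtain ⟨i, hi, rfl⟩ := (mem_SC N q).1 hq
      have hqF : 13 + 4 * i ∉ SE N := by rw [mem_SE]; omega
      have hpF : 14 + 4 * i ∉ SF N := by rw [mem_SF]; omega
      refine ⟨{14 + 4 * i}, ?_, ?_, ?_⟩
      · intro x hx
        rw [Finset.mem_singleton] at hx
        rw [hx, mem_SE]
        omega
      · intro h
        have := congrArg Finset.card h
        rw [card_SE, Finset.card_singleton] at this
        omega
      · refine pat_eq_of_map (wd N) (wd_injective N) ?_
          (fun x => if x = 13 + 4 * i then 14 + 4 * i else ps x) ?_ ?_ ?_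
        · rw [Finset.card_union_of_disjoint (by simpa using hqF),
            Finset.card_union_of_disjoint (by simpa using hpF), card_eq]
          simp
        · intro x hx
          rw [Finset.mem_union, Finset.mem_singleton] at hx
          rw [Finset.mem_union, Finset.mem_singleton]
          rcases hx with hx | hx
          · have hne : x ≠ 13 + 4 * i := fun h => hqF (h ▸ hx)
            simp only [if_neg hne]
            exact Or.inl (ps_mem N x hx)
          · simp only [if_pos hx]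
            right; trivial
        · intro x hx y hy hxy
          rw [Finset.mem_union, Finset.mem_singleton] at hx hy
          rcases hx with hx | hx <;> rcases hy with hy | hy
          · have hne : x ≠ 13 + 4 * i := fun h => hqF (h ▸ hx)
            have hne' : y ≠ 13 + 4 * i := fun h => hqF (h ▸ hy)
            simp only [if_neg hne, if_neg hne']
            exact ps_lt N x y hx hy hxy
          · have hne : x ≠ 13 + 4 * i := fun h => hqF (h ▸ hx)
            simp only [if_neg hne, if_pos hy]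
            have := (cellR_conv N i x hi hx).1
            omega
          · have hne' : y ≠ 13 + 4 * i := fun h => hqF (h ▸ hy)
            simp only [if_pos hx, if_neg hne']
            have := (cellR_conv N i y hi hy).1
            omega
          · omega
        · intro x hx y hy
          rw [Finset.mem_union, Finset.mem_singleton] at hx hy
          rcases hx with hx | hx <;> rcases hy with hy | hy
          · have hne : x ≠ 13 + 4 * i := fun h => hqF (h ▸ hx)
            have hne' : y ≠ 13 + 4 * i := fun h => hqF (h ▸ hy)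
            simp only [if_neg hne, if_neg hne']
            exact ps_wd N x y hx hy
          · have hne : x ≠ 13 + 4 * i := fun h => hqF (h ▸ hx)
            simp only [if_neg hne, if_pos hy]
            rw [hy]
            exact (cellR_conv N i x hi hx).2.1
          · have hne' : y ≠ 13 + 4 * i := fun h => hqF (h ▸ hy)
            simp only [if_pos hx, if_neg hne']
            rw [hx]
            exact (cellR_conv N i y hi hy).2.2
          · simp only [if_pos hx, if_pos hy]
            rw [hx, hy]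
            simp

theorem mu_family (N : ℕ) : mu (pt N (SE N)) (pt N (SE N ∪ SF N)) = 3 - (N : ℤ) := by
  have h := mu_two (wd N) (wd_injective N) (SE N) (SF N) (SE_disj N)
    ⟨0, by rw [mem_SE]; omega⟩ ⟨3, by rw [mem_SF]; omega⟩
    (by rw [card_SE]; exact ⟨N + 3, by omega⟩) (card_eq N) (pat_SE_eq N)
    (hyp_A N)
    (fun T hT hTn T' hT' hTn' h => Finset.Subset.antisymm
      (hyp_E N T T' hT hT' hTn' (by rw [pt, pt, h]; exact Cont.refl _))
      (hyp_E N T' T hT' hT hTn (by rw [pt, pt, h]; exact Cont.refl _)))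
    (fun T hT hTn T' hT' hTn' h => Finset.Subset.antisymm
      (hyp_F N T T' hT hT' hTn' (by rw [pt, pt, h]; exact Cont.refl _))
      (hyp_F N T' T hT' hT hTn (by rw [pt, pt, h]; exact Cont.refl _)))
    (SC N)
    (by
      intro q hq
      obtain ⟨i, hi, rfl⟩ := (mem_SC N q).1 hq
      refine ⟨?_, ?_⟩
      · intro x hx
        rw [Finset.mem_singleton] at hx
        rw [hx, mem_SF]
        omega
      · intro h
        have := congrArg Finset.card h
        rw [← card_eq, card_SE, Finset.card_singleton] at this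
        omega)
    (fun T hT _ => hyp_C N T hT)
  rw [card_SC] at h
  exact h

theorem nu_family (N : ℕ) : nu (pt N (SE N)) (pt N (SE N ∪ SF N)) = 2 := by
  obtain ⟨a, ha, haS, haw⟩ := pat_spec (wd N) (wd_injective N) (SE N)
  obtain ⟨b, hb, hbS, hbw⟩ := pat_spec (wd N) (wd_injective N) (SE N ∪ SF N)
  obtain ⟨e1, he1, hg1⟩ := map_occ (wd N) (wd_injective N) (SE N) (SE N ∪ SF N) a ha haS haw b hb
    hbS hbw id (fun x hx => Finset.mem_union_left _ hx) (fun _ _ _ _ h => h)
    (fun _ _ _ _ => Iff.rfl)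
  obtain ⟨e2, he2, hg2⟩ := map_occ (wd N) (wd_injective N) (SE N) (SE N ∪ SF N) a ha haS haw b hb
    hbS hbw ps (fun x hx => Finset.mem_union_right _ (ps_mem N x hx))
    (fun x hx y hy h => ps_lt N x y hx hy h) (fun x hx y hy => ps_wd N x y hx hy)
  have hne : e1 ≠ e2 := by
    intro h
    have m0 : 0 ∈ SE N := by rw [mem_SE]; omega
    obtain ⟨i, hi⟩ := (haS 0).1 m0
    have a1 := hg1 i
    have a2 := hg2 i
    rw [h, ← a2, hi] at a1
    simp [ps] at a1
  have hset : {e : Fin (pt N (SE N)).1 → Fin (pt N (SE N ∪ SF N)).1 |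
      IsOcc (pt N (SE N)) (pt N (SE N ∪ SF N)) e} = {e1, e2} := by
    ext e
    rw [Set.mem_insert_iff, Set.mem_singleton_iff]
    constructor
    · intro he
      obtain ⟨g, h1, h2, h3, h4⟩ := occ_map (wd N) (wd_injective N) (SE N) (SE N ∪ SF N) a ha haS
        haw b hb hbS hbw e he
      rcases maps_cases N g (fun x hx => by
        have := h1 x hx
        rwa [SE_union, Finset.mem_range] at this) h2 h3 with h5 | h5
      · left
        funext i
        apply hb.injective
        rw [← h4 i, ← hg1 i, h5 _ ((haS _).2 ⟨i, rfl⟩)]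
        rfl
      · right
        funext i
        apply hb.injective
        rw [← h4 i, ← hg2 i, h5 _ ((haS _).2 ⟨i, rfl⟩)]
    · rintro (rfl | rfl)
      · exact he1
      · exact he2
  rw [nu, hset]
  exact Set.ncard_pair hne

end Family

/-- **Main result.** The Moebius function of the permutation pattern poset is not bounded by any
function of the number of occurrences; in fact for every `N` there are permutations `σ` and `τ`,
of lengths `2 N + 6` and `4 N + 12`, such that `σ` occurs exactly twice in `τ` while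
`μ(σ, τ) = 3 - N`. -/
theorem result :
    (¬ ∃ f : ℕ → ℕ, ∀ σ τ : Pm, |mu σ τ| ≤ (f (nu σ τ) : ℤ)) ∧
    ∀ N : ℕ, ∃ σ τ : Pm, σ.1 = 2 * N + 6 ∧ τ.1 = 4 * N + 12 ∧ nu σ τ = 2 ∧
      mu σ τ = 3 - (N : ℤ) := by
  have main : ∀ N : ℕ, ∃ σ τ : Pm, σ.1 = 2 * N + 6 ∧ τ.1 = 4 * N + 12 ∧ nu σ τ = 2 ∧
      mu σ τ = 3 - (N : ℤ) := fun N =>
    ⟨pt N (SE N), pt N (SE N ∪ SF N), by rw [pt, pat_size, card_SE],
      by rw [pt, pat_size, SE_union, Finset.card_range], nu_family N, mu_family N⟩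
  refine ⟨?_, main⟩
  rintro ⟨f, hf⟩
  obtain ⟨σ, τ, -, -, h1, h2⟩ := main (f 2 + 4)
  have := hf σ τ
  rw [h1, h2] at this
  push_cast at this
  rw [abs_le] at this
  linarith

end Pool.Agent.Results.MP_d308b2_co.TwoOccUnbounded
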